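import Pool.Agent.Results.MP_a83c81_co.InfiniteMinimal

/-!
# MP_b4d381_co, Q1: there is an infinite minimal degree-sequence-forcing set

For the graph `G` on 15 vertices of `MP_a83c81_co` the set `D(G)` is infinite.  Here we prove that
`D(G)` is a minimal DSF set (for every graph `G`), so that an infinite minimal DSF set exists.
-/

set_option autoImplicit false

open Finset
open Pool.Agent.Results.MP_a83c81_co.InfiniteMinimal

namespace Pool.Agent.Results.MP_b4d381_co.InfiniteMinimalDSF

open scoped Classical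

/-- Families of finite graphs, given on the vertex sets `Fin n`. -/
abbrev GraphFam : Type := (n : ℕ) → Set (SimpleGraph (Fin n))

/-- The family is closed under isomorphism, i.e. it is a set of graphs up to isomorphism. -/
def IsoClosed (F : GraphFam) : Prop :=
  ∀ (n : ℕ) (X Y : SimpleGraph (Fin n)), Nonempty (X ≃g Y) → X ∈ F n → Y ∈ F n

/-- `H` is `F`-free: no induced subgraph of `H` is isomorphic to a member of `F`. -/
def Free (F : GraphFam) {m : ℕ} (H : SimpleGraph (Fin m)) : Prop :=
  ∀ (n : ℕ) (X : SimpleGraph (Fin n)), X ∈ F n → IsEmpty (X ↪g H)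

/-- `F` is degree-sequence-forcing: it is nonempty and, for any two graphs with the same degree
sequence, if one is `F`-free then so is the other. -/
def DSF (F : GraphFam) : Prop :=
  (∃ n : ℕ, (F n).Nonempty) ∧
  ∀ (m : ℕ) (H H' : SimpleGraph (Fin m)), degSeq H = degSeq H' → Free F H → Free F H'

/-- `F` is a minimal DSF set: a DSF set (up to isomorphism) such that no (nonempty) proper subset
of it is DSF. -/
def MinimalDSF (F : GraphFam) : Prop :=
  IsoClosed F ∧ DSF F ∧
  ∀ F' : GraphFam, IsoClosed F' → (∀ n, F' n ⊆ F n) → F' ≠ F → ¬ DSF F'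

/-! ### `P(G)` -/

variable {α V W : Type} [Fintype V] [Fintype W]

lemma InP_iso {G : SimpleGraph α} {X : SimpleGraph V} {Y : SimpleGraph W} (φ : X ≃g Y)
    (h : InP G Y) : InP G X := by
  have : X = Y.comap φ.toEquiv := by
    ext a b
    exact φ.map_rel_iff.symm
  rw [this]
  exact InP_comap φ.toEquiv G Y h

lemma InP_degSeq {G : SimpleGraph α} {X X' : SimpleGraph V} (h : degSeq X = degSeq X')
    (hX : InP G X) : InP G X' := by
  obtain ⟨Γ, h1, h2⟩ := hX
  exact ⟨Γ, h1.trans h, h2⟩

/-- replacing the graph induced on `S` by `Γ` -/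
def repl (H : SimpleGraph V) (S : Set V) (Γ : SimpleGraph S) : SimpleGraph V where
  Adj x y := (∃ (hx : x ∈ S) (hy : y ∈ S), Γ.Adj ⟨x, hx⟩ ⟨y, hy⟩) ∨
    (¬ (x ∈ S ∧ y ∈ S) ∧ H.Adj x y)
  symm := by
    constructor
    rintro x y (⟨hx, hy, h⟩ | ⟨h1, h2⟩)
    · exact Or.inl ⟨hy, hx, h.symm⟩
    · exact Or.inr ⟨fun h => h1 ⟨h.2, h.1⟩, h2.symm⟩
  loopless := by
    constructor
    rintro x (⟨hx, hy, h⟩ | ⟨h1, h2⟩)
    · exact Γ.loopless.irrefl _ h
    · exact H.loopless.irrefl _ h2

lemma degree_split (H : SimpleGraph V) (S : Set V) (v : V) :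
    H.degree v = (univ.filter (fun w => H.Adj v w ∧ w ∈ S)).card +
      (univ.filter (fun w => H.Adj v w ∧ w ∉ S)).card := by
  rw [← SimpleGraph.card_neighborFinset_eq_degree, SimpleGraph.neighborFinset_eq_filter,
    ← Finset.filter_filter, ← Finset.filter_filter, Finset.card_filter_add_card_filter_not]

lemma degree_repl (H : SimpleGraph V) (S : Set V) (Γ : SimpleGraph S)
    (hΓ : ∀ v : S, Γ.degree v = (H.induce S).degree v) (v : V) :
    (repl H S Γ).degree v = H.degree v := by
  rw [degree_split (repl H S Γ) S v, degree_split H S v]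
  congr 1
  · by_cases hv : v ∈ S
    · have h1 : ∀ (K : SimpleGraph V) (Δ : SimpleGraph S),
          (∀ w : S, K.Adj v w ↔ Δ.Adj ⟨v, hv⟩ w) →
          (univ.filter (fun w => K.Adj v w ∧ w ∈ S)).card = Δ.degree ⟨v, hv⟩ := by
        intro K Δ hK
        rw [← SimpleGraph.card_neighborFinset_eq_degree, SimpleGraph.neighborFinset_eq_filter]
        symm
        apply Finset.card_bij (fun (w : S) _ => (w : V))
        · intro w hw
          rw [Finset.mem_filter] at hw ⊢
          exact ⟨mem_univ _, (hK w).2 hw.2, w.2⟩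
        · intro a _ b _ h
          exact Subtype.ext h
        · intro w hw
          rw [Finset.mem_filter] at hw
          refine ⟨⟨w, hw.2.2⟩, ?_, rfl⟩
          rw [Finset.mem_filter]
          exact ⟨mem_univ _, (hK ⟨w, hw.2.2⟩).1 hw.2.1⟩
      have h2 : ∀ w : S, (repl H S Γ).Adj v w ↔ Γ.Adj ⟨v, hv⟩ w := by
        intro w
        constructor
        · rintro (⟨hx, hy, h⟩ | ⟨h, -⟩)
          · exact h
          · exact absurd ⟨hv, w.2⟩ h
        · intro h
          exact Or.inl ⟨hv, w.2, h⟩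
      have h3 : ∀ w : S, H.Adj v w ↔ (H.induce S).Adj ⟨v, hv⟩ w := fun w => Iff.rfl
      rw [h1 (repl H S Γ) Γ h2, h1 H (H.induce S) h3, hΓ]
      exact degree_inst _ _ _ _
    · congr 1
      apply Finset.filter_congr
      intro w _
      constructor
      · rintro ⟨⟨hx, -, -⟩ | ⟨-, h⟩, h2⟩
        · exact absurd hx hv
        · exact ⟨h, h2⟩
      · rintro ⟨h, h2⟩
        exact ⟨Or.inr ⟨fun h => hv h.1, h⟩, h2⟩
  · congr 1
    apply Finset.filter_congr
    intro w _
    constructor
    · rintro ⟨⟨-, hy, -⟩ | ⟨-, h⟩, h2⟩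
      · exact absurd hy h2
      · exact ⟨h, h2⟩
    · rintro ⟨h, h2⟩
      exact ⟨Or.inr ⟨fun h => h2 h.2, h⟩, h2⟩

/-- `P(G)` is closed upwards. -/
lemma InP_of_induce {G : SimpleGraph α} {H : SimpleGraph V} (S : Set V)
    (h : InP G (H.induce S)) : InP G H := by
  obtain ⟨Γ, h1, ⟨φ⟩⟩ := h
  obtain ⟨e, he⟩ := exists_equiv_of_map _ _ (degSeq_eq_iff _ _ h1)
  have hdeg : ∀ v : S, (Γ.comap e).degree v = (H.induce S).degree v := by
    intro v
    rw [degree_comap, he v]
    exact degree_inst _ _ _ _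
  refine ⟨repl H S (Γ.comap e), degSeq_of_degree _ _ (degree_repl H S _ hdeg), ⟨?_⟩⟩
  have ψ : Γ.comap e ↪g repl H S (Γ.comap e) :=
    { toFun := fun x => (x : V)
      inj' := Subtype.val_injective
      map_rel_iff' := by
        intro a b
        constructor
        · intro hab
          rcases hab with ⟨_, _, h⟩ | ⟨h, _⟩
          · exact h
          · exact absurd ⟨a.2, b.2⟩ h
        · intro h
          exact Or.inl ⟨a.2, b.2, h⟩ }
  exact (φ.trans (SimpleGraph.Iso.comap e Γ).symm.toEmbedding).trans ψ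

/-- a graph embedding is an isomorphism onto the graph induced on its range -/
lemma rangeIso {X : SimpleGraph V} {Y : SimpleGraph W} (φ : X ↪g Y) (S : Set W)
    (hS : S = Set.range φ) : Nonempty (X ≃g Y.induce S) := by
  subst hS
  exact ⟨{ toEquiv := Equiv.ofInjective φ φ.injective
           map_rel_iff' := by
            intro a b
            exact φ.map_rel_iff }⟩

lemma InP_of_embedding {G : SimpleGraph α} {X : SimpleGraph V} {Y : SimpleGraph W} (φ : X ↪g Y)
    (h : InP G X) : InP G Y := by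
  obtain ⟨S, hS⟩ : ∃ S : Set W, S = Set.range φ := ⟨_, rfl⟩
  obtain ⟨ψ⟩ := rangeIso φ S hS
  exact InP_of_induce S (InP_iso ψ.symm h)

/-- an embedding of a member of `P(G)` into a member of `D(G)` is onto -/
lemma surj_of_InD {G : SimpleGraph α} {X : SimpleGraph V} {Y : SimpleGraph W} (φ : X ↪g Y)
    (hX : InP G X) (hY : InD G Y) : Function.Surjective φ := by
  by_contra hns
  obtain ⟨S, hS⟩ : ∃ S : Set W, S = Set.range φ := ⟨_, rfl⟩
  obtain ⟨ψ⟩ := rangeIso φ S hS
  refine hY.2 S (fun h => hns (Set.range_eq_univ.1 (hS.symm.trans h))) ?_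
  exact InP_iso ψ.symm hX

/-- a bijective embedding gives an isomorphism -/
noncomputable def isoOfSurj {X : SimpleGraph V} {Y : SimpleGraph W} (φ : X ↪g Y)
    (h : Function.Surjective φ) : X ≃g Y where
  toEquiv := Equiv.ofBijective φ ⟨φ.injective, h⟩
  map_rel_iff' := by
    intro a b
    exact φ.map_rel_iff

lemma InD_iso {G : SimpleGraph α} {X : SimpleGraph V} {Y : SimpleGraph W} (φ : X ≃g Y)
    (h : InD G X) : InD G Y := by
  refine ⟨InP_iso φ.symm h.1, ?_⟩
  intro S hS hP
  have e1 : (Y.induce S) ↪g Y := SimpleGraph.Embedding.induce S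
  have e2 : (Y.induce S) ↪g X := (SimpleGraph.Embedding.induce S).trans φ.symm.toEmbedding
  have hsurj : Function.Surjective
      ((SimpleGraph.Embedding.induce S : (Y.induce S) ↪g Y).trans φ.symm.toEmbedding) :=
    surj_of_InD _ hP h
  apply hS
  ext y
  simp only [Set.mem_univ, iff_true]
  obtain ⟨s, hs⟩ := hsurj (φ.symm y)
  have h1 : φ.symm (s : W) = φ.symm y := hs
  have h2 : (s : W) = y := φ.symm.injective h1
  rw [← h2]
  exact s.2

/-- every member of `P(G)` has an induced subgraph in `D(G)` -/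
lemma exists_InD {G : SimpleGraph α} : ∀ (m : ℕ) (H : SimpleGraph (Fin m)), InP G H →
    ∃ (n : ℕ) (X : SimpleGraph (Fin n)), InD G X ∧ Nonempty (X ↪g H) := by
  intro m
  induction m using Nat.strong_induction_on with
  | _ m ih =>
    intro H hH
    by_cases hD : InD G H
    · exact ⟨m, H, hD, ⟨SimpleGraph.Embedding.refl⟩⟩
    · have : ∃ S : Set (Fin m), S ≠ Set.univ ∧ InP G (H.induce S) := by
        by_contra hcon
        push Not at hcon
        exact hD ⟨hH, hcon⟩
      obtain ⟨S, hS, hP⟩ := this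
      have hlt : Fintype.card S < m := by
        have : Fintype.card S < Fintype.card (Fin m) := by
          apply Fintype.card_lt_of_injective_not_surjective (fun x : S => (x : Fin m))
            Subtype.val_injective
          intro hsurj
          apply hS
          ext x
          simp only [Set.mem_univ, iff_true]
          obtain ⟨y, hy⟩ := hsurj x
          rw [← hy]; exact y.2
        simpa using this
      let e : Fin (Fintype.card S) ≃ S := (Fintype.equivFin S).symm
      obtain ⟨n, X, hX, ⟨φ⟩⟩ := ih _ hlt ((H.induce S).comap e) (InP_comap e G _ hP)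
      exact ⟨n, X, hX, ⟨(φ.trans (SimpleGraph.Iso.comap e (H.induce S)).toEmbedding).trans
        (SimpleGraph.Embedding.induce S)⟩⟩

/-- The set `D(G)`. -/
def DG (G : SimpleGraph α) : GraphFam := fun _ => {H | InD G H}

lemma free_iff (G : SimpleGraph α) {m : ℕ} (H : SimpleGraph (Fin m)) :
    Free (DG G) H ↔ ¬ InP G H := by
  constructor
  · intro h hP
    obtain ⟨n, X, hX, ⟨φ⟩⟩ := exists_InD m H hP
    exact (h n X hX).false φ
  · intro h n X hX
    exact ⟨fun φ => h (InP_of_embedding φ hX.1)⟩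

lemma InP_self {a : ℕ} (G : SimpleGraph (Fin a)) : InP G G :=
  ⟨G, rfl, ⟨SimpleGraph.Embedding.refl⟩⟩

lemma eq_of_bij {n k : ℕ} {X : SimpleGraph (Fin n)} {Y : SimpleGraph (Fin k)} (φ : X ≃g Y) :
    n = k := by
  simpa using Fintype.card_congr φ.toEquiv

lemma mem_of_iso {F : GraphFam} (hF : IsoClosed F) {n k : ℕ} {X : SimpleGraph (Fin n)}
    {Y : SimpleGraph (Fin k)} (φ : X ≃g Y) (hX : X ∈ F n) : Y ∈ F k := by
  obtain rfl : n = k := eq_of_bij φ
  exact hF n X Y ⟨φ⟩ hX

/-- `D(G)` is a minimal DSF set. -/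
theorem minimalDSF_DG {a : ℕ} (G : SimpleGraph (Fin a)) : MinimalDSF (DG G) := by
  refine ⟨fun n X Y ⟨φ⟩ hX => InD_iso φ hX, ⟨?_, ?_⟩, ?_⟩
  · obtain ⟨n, X, hX, -⟩ := exists_InD a G (InP_self G)
    exact ⟨n, X, hX⟩
  · intro m H H' hd hH
    rw [free_iff] at hH ⊢
    exact fun h => hH (InP_degSeq hd.symm h)
  · intro F' hiso hsub hne hDSF
    -- `G` is in `F'`
    have hG : G ∈ F' a := by
      have hex := hDSF.1
      obtain ⟨n, ⟨X, hX⟩, hmin⟩ : ∃ n, (F' n).Nonempty ∧ ∀ k < n, ¬ (F' k).Nonempty :=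
        ⟨Nat.find hex, Nat.find_spec hex, fun k hk => Nat.find_min hex hk⟩
      have hXD : InD G X := hsub n hX
      obtain ⟨X', hd, ⟨φ⟩⟩ := hXD.1
      have hnf : ¬ Free F' X' := by
        intro hf
        exact (hDSF.2 n X' X hd hf n X hX).false SimpleGraph.Embedding.refl
      unfold Free at hnf
      push Not at hnf
      obtain ⟨k, Z, hZ, hZe⟩ := hnf
      obtain ⟨ψ⟩ := hZe
      have hk : ¬ k < n := fun h => hmin k h ⟨Z, hZ⟩
      have hk2 : k ≤ n := by
        have := Fintype.card_le_of_injective ψ ψ.injective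
        simpa only [Fintype.card_fin] using this
      have hkn : k = n := by omega
      subst hkn
      have hsurj : Function.Surjective ψ := by
        exact Finite.surjective_of_injective ψ.injective
      have hX' : X' ∈ F' k := hiso k Z X' ⟨isoOfSurj ψ hsurj⟩ hZ
      have hX'D : InD G X' := hsub k hX'
      have hs : Function.Surjective φ := surj_of_InD φ (InP_self G) hX'D
      exact mem_of_iso hiso (isoOfSurj φ hs).symm hX'
    apply hne
    funext m
    apply Set.Subset.antisymm (hsub m)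
    intro Z hZ
    have hZD : InD G Z := hZ
    obtain ⟨Z', hd, ⟨φ⟩⟩ := hZD.1
    have hnf : ¬ Free F' Z := by
      intro hf
      exact (hDSF.2 m Z Z' hd.symm hf a G hG).false φ
    unfold Free at hnf
    push Not at hnf
    obtain ⟨k, Y, hY, hYe⟩ := hnf
    obtain ⟨ψ⟩ := hYe
    have hYD : InD G Y := hsub k hY
    exact mem_of_iso hiso (isoOfSurj ψ (surj_of_InD ψ hYD.1 hZD)) hY

/-- **Q1, affirmative answer.**  There is a minimal DSF set that contains infinitely many pairwise
non-isomorphic graphs. -/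
theorem result : ∃ F : GraphFam, MinimalDSF F ∧
    ∃ (n : ℕ → ℕ) (X : (i : ℕ) → SimpleGraph (Fin (n i))),
      (∀ i, X i ∈ F (n i)) ∧ ∀ i j, i ≠ j → IsEmpty (X i ≃g X j) := by
  obtain ⟨G, hG⟩ := Pool.Agent.Results.MP_a83c81_co.InfiniteMinimal.result
  refine ⟨DG G, minimalDSF_DG G, fun i => (hG.natEmbedding _ i : ℕ),
    fun i => (hG.natEmbedding _ i).2.choose, fun i => (hG.natEmbedding _ i).2.choose_spec, ?_⟩
  intro i j hij
  refine ⟨fun φ => hij ?_⟩
  have h1 := eq_of_bij φ
  exact (hG.natEmbedding _).injective (Subtype.ext h1)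

end Pool.Agent.Results.MP_b4d381_co.InfiniteMinimalDSF
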